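import Pool.Agent.N483.KM.StmP
import Pool.Agent.R755.KF.Fin
import Pool.Agent.R476.OR.Fin
import Pool.Agent.R476.OR.Rl

/-!
# Project KM (helper483): concentration, real valued functions with linear parameters
-/

set_option autoImplicit false

namespace Pool.Agent.N678.KM

open MeasureTheory Set Filter Topology
open scoped ENNReal InnerProductSpace
open Pool.Agent.R754.KG (E un sl Rv)
open Pool.Agent.R755.KF (CB)
open Pool.Agent.Y506.PV (CcW ind)
open Pool.Agent.N483.KM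
open Pool.Agent.R476.OR (Orl KX)

/-- the constant -/
theorem prr_const (h2 : S_SECC) (q : ℕ) (δ : ℝ) (hδ : 0 < δ) (m : ℕ) :
    ∃ κ : ℝ, 0 < κ ∧ ∀ (n N : ℕ) (e1 : (E n × E (q + m)) ≃ₗ[ℝ] E (N + m))
    (L : Set (E n × E (q + m))) (A : E (N + m) →ₗ[ℝ] E N) (ts : E (q + m)), 1 ≤ N → CB L →
    0 < Rv L ts → Cen 0 L ts → Function.Surjective A → (interior (e1 '' L)).Nonempty →
    Orl (A '' (e1 '' L)) → CcW κ δ (ind (sl L ts)) := by
  obtain ⟨δ', hδ', H1⟩ := h2 (q + m) 0 le_rfl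
  obtain ⟨δ0, hδ0, H2⟩ := Pool.Agent.R755.KF.liftR m δ' hδ'
  obtain ⟨κ1, hκ1, H3⟩ := Pool.Agent.R476.OR.cc_orl
    (Pool.Agent.R476.OR.gtw Pool.Agent.R476.OR.two Pool.Agent.R476.OR.m4r)
    (Pool.Agent.R476.OR.apz Pool.Agent.R476.OR.limc) Pool.Agent.R476.OR.box δ0 hδ0
  obtain ⟨κ', hκ', H4⟩ := H2 κ1 hκ1
  obtain ⟨κ, hκ, H5⟩ := H1 κ' δ hκ' hδ
  refine ⟨κ, hκ, fun n N e1 L A ts hN hL hR hC hA hint hO => H5 n (N + m) e1 L ts hL hR hC ?_⟩
  exact H4 N (e1 '' L) A hA (hL.comp.image e1.toLinearMap.continuous_of_finiteDimensional)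
    (hL.conv.linear_image e1.toLinearMap) hint (H3 N _ hN hO)

/-- the first coordinates, as a linear map -/
noncomputable def pqL (q m : ℕ) : E (q + m) →ₗ[ℝ] E q where
  toFun := pq q m
  map_add' x y := by ext; simp [pq]
  map_smul' c x := by ext; simp [pq]

theorem pqL_surj (q m : ℕ) : Function.Surjective (pqL q m) := by
  intro u
  refine ⟨WithLp.toLp 2 (Fin.append (fun i => u i) (fun _ => 0)), ?_⟩
  ext i
  simp [pqL, pq]

theorem int_of_vol' {n k : ℕ} {C : Set (E n × E k)} (hC : Convex ℝ C) (hv : volume C ≠ 0) :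
    (interior C).Nonempty := by
  by_contra hne
  rw [not_nonempty_iff_eq_empty] at hne
  have : (volume : Measure (E n × E k)).IsAddHaarMeasure := by
    rw [Measure.volume_eq_prod]
    infer_instance
  have h1 := hC.addHaar_frontier (volume : Measure (E n × E k))
  have h2 : C ⊆ frontier C := by
    rw [frontier, hne, sdiff_empty]
    exact subset_closure
  exact hv (measure_mono_null h2 h1)

/-- superlinear growth -/
theorem superlin {n q N : ℕ} (ψ : (E n × E q) ≃ₗ[ℝ] E N) (V : Fin N → ℝ → ℝ) (R : ℝ)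
    (hR : ∀ i t, max (|t| - R) 0 ^ 2 ≤ V i t) (c : ℝ) :
    ∃ b : ℝ, ∀ z, c * ‖z‖ ≤ (∑ i, V i (ψ z i)) + b := by
  obtain ⟨C, hC0, hC⟩ : ∃ C : ℝ, 0 ≤ C ∧ ∀ z, ‖z‖ ≤ C * ‖ψ z‖ := by
    refine ⟨‖LinearMap.toContinuousLinearMap ψ.symm.toLinearMap‖, norm_nonneg _, fun z => ?_⟩
    have := (LinearMap.toContinuousLinearMap ψ.symm.toLinearMap).le_opNorm (ψ z)
    simpa using this
  refine ⟨N * R ^ 2 + (|c| * C) ^ 2 / 2, fun z => ?_⟩
  have h1 : c * ‖z‖ ≤ |c| * C * ‖ψ z‖ := by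
    calc c * ‖z‖ ≤ |c| * ‖z‖ := mul_le_mul_of_nonneg_right (le_abs_self c) (norm_nonneg z)
      _ ≤ |c| * (C * ‖ψ z‖) := mul_le_mul_of_nonneg_left (hC z) (abs_nonneg c)
      _ = _ := by ring
  have h2 : |c| * C * ‖ψ z‖ ≤ ‖ψ z‖ ^ 2 / 2 + (|c| * C) ^ 2 / 2 := by
    nlinarith [sq_nonneg (|c| * C - ‖ψ z‖)]
  have h3 : ‖ψ z‖ ^ 2 = ∑ i, (ψ z i) ^ 2 := by
    rw [EuclideanSpace.norm_sq_eq]
    exact Finset.sum_congr rfl fun i _ => by rw [Real.norm_eq_abs, sq_abs]
  have h4 : ∀ i, (ψ z i) ^ 2 / 2 ≤ V i (ψ z i) + R ^ 2 := by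
    intro i
    have h5 := hR i (ψ z i)
    have h6 : |ψ z i| ≤ max (|ψ z i| - R) 0 + |R| := by
      have := le_max_left (|ψ z i| - R) 0
      have := le_abs_self R
      linarith
    have h7 : (ψ z i) ^ 2 ≤ (max (|ψ z i| - R) 0 + |R|) ^ 2 := by
      rw [← sq_abs (ψ z i)]
      exact pow_le_pow_left₀ (abs_nonneg _) h6 2
    have h8 := sq_nonneg (max (|ψ z i| - R) 0 - |R|)
    have h9 := sq_abs R
    nlinarith
  have h5 : ‖ψ z‖ ^ 2 / 2 ≤ (∑ i, V i (ψ z i)) + N * R ^ 2 := by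
    rw [h3, Finset.sum_div]
    calc ∑ i, (ψ z i) ^ 2 / 2 ≤ ∑ i, (V i (ψ z i) + R ^ 2) := Finset.sum_le_sum fun i _ => h4 i
      _ = _ := by
        rw [Finset.sum_add_distrib]
        simp
  linarith

/-- sums of convex functions -/
theorem convexOn_sum' {V ι : Type} [AddCommGroup V] [Module ℝ V] (s : Finset ι) (f : ι → V → ℝ)
    (h : ∀ i, ConvexOn ℝ univ (f i)) : ConvexOn ℝ univ (fun x => ∑ i ∈ s, f i x) := by
  classical
  induction s using Finset.induction_on with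
  | empty => simpa using convexOn_const (𝕜 := ℝ) (s := (univ : Set V)) (0 : ℝ) convex_univ
  | insert a s ha ih =>
    simp only [Finset.sum_insert ha]
    exact (h a).add ih

theorem conv_S {n q N : ℕ} (ψ : (E n × E q) ≃ₗ[ℝ] E N) (V : Fin N → ℝ → ℝ)
    (hV : ∀ i, ConvexOn ℝ univ (V i)) : ConvexOn ℝ univ (fun z => ∑ i, V i (ψ z i)) := by
  refine convexOn_sum' _ (fun i z => V i (ψ z i)) fun i => ?_
  have := (hV i).comp_linearMap ((EuclideanSpace.proj i : E N →L[ℝ] ℝ).toLinearMap ∘ₗ ψ.toLinearMap)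
  simpa [Function.comp_def] using this

theorem t_PRR (h1 : S_PLF) (h2 : S_SECC) : S_PRR := by
  intro r q δ hδ
  obtain ⟨κ, hκ, H⟩ := Pool.Agent.R754.KG.min_const (P := fun m κ => ∀ (n N : ℕ)
    (e1 : (E n × E (q + m)) ≃ₗ[ℝ] E (N + m))
    (L : Set (E n × E (q + m))) (A : E (N + m) →ₗ[ℝ] E N) (ts : E (q + m)), 1 ≤ N → CB L →
    0 < Rv L ts → Cen 0 L ts → Function.Surjective A → (interior (e1 '' L)).Nonempty →
    Orl (A '' (e1 '' L)) → CcW κ δ (ind (sl L ts)))
    (fun m => prr_const h2 q δ hδ m)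
    (fun m κ κ' hk hP n N e1 L A ts a1 a2 a3 a4 a5 a6 a7 =>
      (hP n N e1 L A ts a1 a2 a3 a4 a5 a6 a7).mono hk) r
  refine ⟨κ, hκ, ?_⟩
  intro n N ψ V e hn hr hVc hV0 hVR hx
  obtain ⟨R, hR⟩ := hVR
  obtain ⟨m, L, ts, l, a, F, hm, hL, hts, hsl, hl, hF⟩ := h1 r n q (fun j z => ∑ i, V j i (ψ z i)) e
    hn hr (fun j => conv_S ψ (V j) (hVc j)) (fun j z => Finset.sum_nonneg fun i _ => hV0 j i _)
    (fun j c => superlin ψ (V j) R (fun i t => hR j i t) c) hx
  have hfin : N = n + q := by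
    have := ψ.finrank_eq
    simpa using this.symm
  have hcard : Module.finrank ℝ (E n × E (q + m)) = Module.finrank ℝ (E (N + m)) := by
    simp [hfin]
    omega
  let e1 : (E n × E (q + m)) ≃ₗ[ℝ] E (N + m) := LinearEquiv.ofFinrankEq _ _ hcard
  let B : (E n × E (q + m)) →ₗ[ℝ] (E n × E q) := LinearMap.prodMap LinearMap.id (pqL q m)
  have hB : Function.Surjective B := Function.surjective_id.prodMap (pqL_surj q m)
  let A : E (N + m) →ₗ[ℝ] E N := ψ.toLinearMap ∘ₗ B ∘ₗ e1.symm.toLinearMap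
  have hA : Function.Surjective A := ψ.surjective.comp (hB.comp e1.symm.surjective)
  have hRpos : 0 < Rv L ts := by
    obtain ⟨S, hS, -, t', ht'⟩ := Pool.Agent.R755.KF.Maux.sup_ex hL (ρ := 1 / 2) (by norm_num)
    have := hts t'
    nlinarith
  have hCen : Cen 0 L ts := by
    intro t _ x _ _
    rw [zero_mul, Real.exp_zero, one_mul]
    exact hts _
  have hintL : (interior L).Nonempty := int_of_vol' hL.conv hL.pos.ne'
  have hint : (interior (e1 '' L)).Nonempty := by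
    have h3 : e1.toContinuousLinearEquiv.toHomeomorph '' interior L =
        interior (e1.toContinuousLinearEquiv.toHomeomorph '' L) := Homeomorph.image_interior _ _
    have h4 : (e1 '' L) = e1.toContinuousLinearEquiv.toHomeomorph '' L := rfl
    rw [h4, ← h3]
    exact hintL.image _
  -- the image
  let c : Fin N → ℝ := fun i => ⟪a, (ψ.symm (EuclideanSpace.single i 1)).2⟫_ℝ
  let W : Fin N → ℝ → ℝ := fun i t => (∑ j, l j * V j i t) + c i * t
  have hAim : A '' (e1 '' L) = {y : E N | ∑ i, W i (y i) ≤ F} := by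
    have h3 : A '' (e1 '' L) = ψ '' (B '' L) := by
      rw [image_image, image_image]
      refine image_congr fun z _ => ?_
      simp [A]
    have h4 : B '' L = {z : E n × E q | ∑ j, l j * (∑ i, V j i (ψ z i)) + ⟪a, z.2⟫_ℝ ≤ F} := by
      rw [← hF]
      rfl
    rw [h3, h4]
    ext y
    have h5 : y ∈ ψ '' {z : E n × E q | ∑ j, l j * (∑ i, V j i (ψ z i)) + ⟪a, z.2⟫_ℝ ≤ F} ↔
        ∑ j, l j * (∑ i, V j i (y i)) + ⟪a, (ψ.symm y).2⟫_ℝ ≤ F := by
      constructor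
      · rintro ⟨z, hz, rfl⟩
        simpa using hz
      · intro hy
        exact ⟨ψ.symm y, by simpa using hy, by simp⟩
    rw [h5]
    have h6 : ⟪a, (ψ.symm y).2⟫_ℝ = ∑ i, c i * y i := by
      have h7 : y = ∑ i, y i • (EuclideanSpace.single i (1 : ℝ) : E N) := by
        ext k
        simp [Finset.sum_apply, Pi.single_apply]
      conv_lhs => rw [h7, map_sum]
      rw [Prod.snd_sum, inner_sum]
      refine Finset.sum_congr rfl fun i _ => ?_
      rw [map_smul, Prod.smul_snd, inner_smul_right, mul_comm]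
    have h8 : ∑ j, l j * (∑ i, V j i (y i)) + ⟪a, (ψ.symm y).2⟫_ℝ = ∑ i, W i (y i) := by
      rw [h6, Finset.sum_add_distrib, Finset.sum_comm]
      congr 1
      exact Finset.sum_congr rfl fun j _ => Finset.mul_sum _ _ _
    rw [h8]
    rfl
  have hWc : ∀ i, ConvexOn ℝ univ (W i) := by
    intro i
    have h3 : ConvexOn ℝ univ (fun t : ℝ => ∑ j, l j * V j i t) :=
      convexOn_sum' _ (fun j t => l j * V j i t) fun j => by
        simpa [smul_eq_mul] using (hVc j i).smul (hl j)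
    have h4 : ConvexOn ℝ univ (fun t : ℝ => c i * t) := by
      refine ⟨convex_univ, fun x _ y _ a b _ _ _ => le_of_eq ?_⟩
      simp only [smul_eq_mul]
      ring
    exact h3.add h4
  have hbd : Bornology.IsBounded (A '' (e1 '' L)) :=
    ((hL.comp.image e1.toLinearMap.continuous_of_finiteDimensional).image
      A.continuous_of_finiteDimensional).isBounded
  have hintA : (interior (A '' (e1 '' L))).Nonempty := Pool.Agent.Y506.PV.int_image hint A hA
  have hO : Orl (A '' (e1 '' L)) := by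
    rw [hAim] at hbd hintA
    obtain ⟨W', F', hW', he⟩ := Pool.Agent.R476.OR.orl_real W F hWc hbd hintA
    rw [hAim]
    exact ⟨hbd, hintA, W', F', hW', he⟩
  have key := H m hm n N e1 L A ts (by omega) hL hRpos hCen hA hint hO
  rw [hsl] at key
  exact key

end Pool.Agent.N678.KM
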